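import Pool.Agent.N525.CS.All

set_option autoImplicit false

/-!
# MP_d539bc_co: the lower bound theorem for centrally symmetric simplicial spheres

Let `d ≥ 4` and let `K` be a centrally symmetric simplicial sphere of dimension `d - 1`. Then
`g₂(K) ≥ C(d,2) - d`, and equality holds if and only if `K` is (isomorphic to) the boundary complex of
a centrally symmetric `d`-polytope that is obtained from the cross-polytope by symmetric stacking.
This is the positive answer to Q1, (a) and (b).
-/

open scoped RealInnerProductSpace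

namespace Pool.Agent.Results.MP_d539bc_co.LowerBoundWithEquality

/-- Euclidean space `ℝ^d`. -/
abbrev E (d : ℕ) : Type := EuclideanSpace ℝ (Fin d)

/-! ### simplicial complexes -/

/-- A finite abstract simplicial complex with vertex set `{0, …, n-1}`. -/
structure SimplicialComplex (n : ℕ) where
  /-- the faces (including the empty set) -/
  faces : Finset (Finset (Fin n))
  empty_mem : ∅ ∈ faces
  vertex_mem : ∀ v, {v} ∈ faces
  down_closed : ∀ σ ∈ faces, ∀ τ, τ ⊆ σ → τ ∈ faces

/-- The geometric realisation of a simplicial complex, in barycentric coordinates: the points with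
nonnegative coordinates of sum `1` whose support is contained in a face. -/
def SimplicialComplex.realisation {n : ℕ} (K : SimplicialComplex n) : Set (Fin n → ℝ) :=
  {x | (∀ v, 0 ≤ x v) ∧ ∑ v, x v = 1 ∧ ∃ σ ∈ K.faces, ∀ v, v ∉ σ → x v = 0}

/-- `K` is a simplicial sphere of dimension `d - 1`: its geometric realisation is homeomorphic to the
unit sphere of `ℝ^d`. -/
def SimplicialComplex.IsSphere {n : ℕ} (K : SimplicialComplex n) (d : ℕ) : Prop :=
  Nonempty (K.realisation ≃ₜ Metric.sphere (0 : E d) 1)

/-- `φ` is a free simplicial involution of `K`; `K` is centrally symmetric if it has one. -/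
structure IsFreeInvolution {n : ℕ} (K : SimplicialComplex n) (φ : Fin n → Fin n) : Prop where
  involutive : ∀ v, φ (φ v) = v
  simplicial : ∀ F ∈ K.faces, F.image φ ∈ K.faces
  free : ∀ F ∈ K.faces, F.Nonempty → F.image φ ≠ F

/-- The number `f_k` of the `k`-dimensional faces, i.e. of the faces with `k + 1` vertices. -/
def SimplicialComplex.f {n : ℕ} (K : SimplicialComplex n) (k : ℕ) : ℕ :=
  (K.faces.filter (fun F => F.card = k + 1)).card

/-- `g₂ = f₁ - d f₀ + C(d+1, 2)` for a complex of dimension `d - 1`. -/
def SimplicialComplex.g₂ {n : ℕ} (K : SimplicialComplex n) (d : ℕ) : ℤ :=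
  (K.f 1 : ℤ) - d * K.f 0 + ((d + 1).choose 2 : ℤ)

/-! ### polytopes -/

/-- `S` is the vertex set of a proper face (possibly empty) of the polytope with the vertex set `X`:
there is a linear functional `c` and a number `a` with `⟪c, x⟫ ≤ a` on `X` and equality exactly on
`S`, and `S ≠ X`. -/
def IsProperFace {d : ℕ} (X S : Finset (E d)) : Prop :=
  S ⊆ X ∧ S ≠ X ∧ ∃ (c : E d) (a : ℝ), (∀ x ∈ X, ⟪c, x⟫ ≤ a) ∧ ∀ x ∈ X, (⟪c, x⟫ = a ↔ x ∈ S)

/-- The hyperplane `⟪c, y⟫ = 1` supports the polytope `conv X` in a facet: `⟪c, y⟫ ≤ 1` on `X`, and the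
points of `X` with `⟪c, y⟫ = 1` span `ℝ^d` linearly (equivalently they span the hyperplane affinely).
If the origin is an interior point of `conv X`, as for centrally symmetric `d`-polytopes, every facet
is given by exactly one such `c`. -/
def DefinesFacet {d : ℕ} (X : Finset (E d)) (c : E d) : Prop :=
  (∀ y ∈ X, ⟪c, y⟫ ≤ 1) ∧ Submodule.span ℝ {y : E d | y ∈ X ∧ ⟪c, y⟫ = 1} = ⊤

/-- The vertices `± e_i` of the cross-polytope `C*_d`. -/
noncomputable def crossPolytope (d : ℕ) : Finset (E d) :=
  (Finset.univ : Finset (Fin d × Bool)).image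
    (fun x => if x.2 then EuclideanSpace.single x.1 (1 : ℝ) else - EuclideanSpace.single x.1 (1 : ℝ))

/-- `SymmetricallyStacked d X`: `X` is the vertex set of a centrally symmetric `d`-polytope that is
obtained from the cross-polytope by finitely many symmetric stacking steps. In a step, a point `v`
beyond one facet (with the hyperplane `⟪c, y⟫ = 1`) and beneath all the other facets is added, together
with `-v`. -/
inductive SymmetricallyStacked (d : ℕ) : Finset (E d) → Prop
  | cross : SymmetricallyStacked d (crossPolytope d)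
  | stack (X : Finset (E d)) (c v : E d) : SymmetricallyStacked d X → DefinesFacet X c →
      1 < ⟪c, v⟫ → (∀ c', DefinesFacet X c' → c' ≠ c → ⟪c', v⟫ < 1) →
      SymmetricallyStacked d (X ∪ {v, -v})

/-- The bijection `f` from the vertices of `K` to `X` identifies `K` with the boundary complex of the
polytope with the vertex set `X`. -/
def IsBoundaryComplex {n d : ℕ} (K : SimplicialComplex n) (X : Finset (E d)) (f : Fin n → E d) :
    Prop :=
  Function.Injective f ∧ X = Finset.univ.image f ∧
    ∀ S : Finset (Fin n), S ∈ K.faces ↔ IsProperFace X (S.image f)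

theorem stacked_iff (d : ℕ) (X : Finset (E d)) :
    SymmetricallyStacked d X ↔ Pool.Agent.N525.CS.Stacked d X := by
  constructor
  · intro h
    induction h with
    | cross => exact Pool.Agent.N525.CS.Stacked.cross d
    | stack X c v _ h1 h2 h3 ih =>
      exact Pool.Agent.N525.CS.Stacked.stack d X c v ih ⟨h1, h2, h3⟩
  · intro h
    induction h with
    | cross => exact SymmetricallyStacked.cross
    | stack X c v _ h1 ih => exact SymmetricallyStacked.stack X c v ih h1.1 h1.2.1 h1.2.2

/-- **Positive answer to Q1, (a) and (b).** Let `d ≥ 4` and let `K` be a centrally symmetric simplicial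
sphere of dimension `d - 1`, with the free involution `φ`. Then
(a) `g₂(K) ≥ C(d,2) - d`;
(b) `g₂(K) = C(d,2) - d` if and only if `K` is the boundary complex of a `d`-polytope obtained from the
cross-polytope by symmetric stacking;
(c) in this case the identification can be chosen such that `φ` corresponds to `x ↦ -x`. -/
theorem result (d : ℕ) (hd : 4 ≤ d) (n : ℕ) (K : SimplicialComplex n) (hK : K.IsSphere d)
    (φ : Fin n → Fin n) (hφ : IsFreeInvolution K φ) :
    (d.choose 2 : ℤ) - d ≤ K.g₂ d ∧
    (K.g₂ d = (d.choose 2 : ℤ) - d ↔ ∃ X : Finset (E d), SymmetricallyStacked d X ∧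
      ∃ f : Fin n → E d, IsBoundaryComplex K X f) ∧
    (K.g₂ d = (d.choose 2 : ℤ) - d → ∃ X : Finset (E d), SymmetricallyStacked d X ∧
      ∃ f : Fin n → E d, IsBoundaryComplex K X f ∧ ∀ v, f (φ v) = - f v) := by
  let K' : Pool.Agent.N525.VR.Cx n := ⟨K.faces, K.empty_mem, K.down_closed⟩
  obtain ⟨h1, h2, h3⟩ := Pool.Agent.N525.CS.final d hd n K' K.vertex_mem hK φ hφ.involutive
    hφ.simplicial hφ.free
  have hf0 : K.f 0 = n := by
    have : K.faces.filter (fun F => F.card = 0 + 1) = Finset.univ.image (fun v : Fin n => {v}) := by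
      ext F
      simp only [Finset.mem_filter, Finset.mem_image, Finset.mem_univ, true_and, zero_add]
      constructor
      · rintro ⟨_, h⟩
        obtain ⟨v, rfl⟩ := Finset.card_eq_one.1 h
        exact ⟨v, rfl⟩
      · rintro ⟨v, rfl⟩
        exact ⟨K.vertex_mem v, Finset.card_singleton v⟩
    unfold SimplicialComplex.f
    rw [this, Finset.card_image_of_injective _ Finset.singleton_injective, Finset.card_univ,
      Fintype.card_fin]
  have hf1 : K.f 1 = (K'.faces.filter (fun F => F.card = 2)).card := rfl
  have hch : ((d + 1).choose 2 : ℤ) = (d.choose 2 : ℤ) + d := by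
    have : (d + 1).choose 2 = d.choose 2 + d := by
      rw [Nat.choose_succ_succ' d 1, Nat.choose_one_right, add_comm]
    rw [this]; push_cast; ring
  have hg : K.g₂ d = (K.f 1 : ℤ) - d * n + ((d.choose 2 : ℤ) + d) := by
    unfold SimplicialComplex.g₂
    rw [hf0, hch]
  have heq : K.g₂ d = (d.choose 2 : ℤ) - d ↔
      (K'.faces.filter (fun F => F.card = 2)).card + 2 * d = d * n := by
    rw [hg, hf1]
    constructor
    · intro h
      have : ((K'.faces.filter (fun F => F.card = 2)).card : ℤ) + 2 * d = d * n := by linarith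
      exact_mod_cast this
    · intro h
      have : ((K'.faces.filter (fun F => F.card = 2)).card : ℤ) + 2 * d = d * n := by exact_mod_cast h
      linarith
  have hc : K.g₂ d = (d.choose 2 : ℤ) - d → ∃ X : Finset (E d), SymmetricallyStacked d X ∧
      ∃ f : Fin n → E d, IsBoundaryComplex K X f ∧ ∀ v, f (φ v) = - f v := by
    intro h
    obtain ⟨X, f, h4, h5, h6, h7, h8⟩ := h2 (heq.1 h)
    exact ⟨X, (stacked_iff d X).2 h4, f, ⟨h5, h6, h7⟩, h8⟩
  refine ⟨?_, ⟨fun h => ?_, ?_⟩, hc⟩
  · rw [hg, hf1]
    have : (d : ℤ) * n ≤ (K'.faces.filter (fun F => F.card = 2)).card + 2 * d := by exact_mod_cast h1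
    linarith
  · obtain ⟨X, h4, f, h5, _⟩ := hc h
    exact ⟨X, h4, f, h5⟩
  · rintro ⟨X, h4, f, h5, h6, h7⟩
    exact heq.2 (h3 X f ((stacked_iff d X).1 h4) h5 h6 h7)

end Pool.Agent.Results.MP_d539bc_co.LowerBoundWithEquality
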